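import Mathlib

/-!
The snake polynomial of a majorant need not be extremal in the Markov inequality
for that majorant.  The counterexample has degree bound 5 and derivative order 1, with
`w = 210 x^5 - 348 x^3 + 141 x`, `p = 200 x^4 - 330 x^2 + 133` and the strictly positive
even continuous majorant `max (|w|) (|p|)`.
-/

namespace Pool.Agent.Results.MP_01622d_an.SnakeNotExtremal

open Polynomial Set

/-- `μ` is a majorant: continuous and nonnegative on `[-1,1]`. -/
def IsMajorant (μ : ℝ → ℝ) : Prop :=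
  ContinuousOn μ (Icc (-1) 1) ∧ ∀ x ∈ Icc (-1 : ℝ) 1, 0 ≤ μ x

/-- `P` has degree at most `n` and `|P| ≤ μ` on `[-1,1]`. -/
def Admissible (n : ℕ) (μ : ℝ → ℝ) (P : ℝ[X]) : Prop :=
  P.natDegree ≤ n ∧ ∀ x ∈ Icc (-1 : ℝ) 1, |P.eval x| ≤ μ x

/-- `ω` is the `n`-th snake polynomial of `μ`: it is admissible and there are points
`1 ≥ τ 0 > τ 1 > ... > τ n ≥ -1` with `ω (τ i) = (-1)^i μ (τ i)`. -/
def IsSnake (n : ℕ) (μ : ℝ → ℝ) (ω : ℝ[X]) : Prop :=
  Admissible n μ ω ∧
    ∃ τ : Fin (n + 1) → ℝ, (∀ i j, i < j → τ j < τ i) ∧ (∀ i, τ i ∈ Icc (-1 : ℝ) 1) ∧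
      ∀ i, ω.eval (τ i) = (-1) ^ (i : ℕ) * μ (τ i)

/-- The uniform norm on `[-1,1]` of a polynomial. -/
noncomputable def supNorm (P : ℝ[X]) : ℝ := ⨆ x : Icc (-1 : ℝ) 1, |P.eval (x : ℝ)|

theorem supNorm_bdd (P : ℝ[X]) :
    BddAbove (range fun x : Icc (-1 : ℝ) 1 => |P.eval (x : ℝ)|) := by
  have h : Continuous fun x : Icc (-1 : ℝ) 1 => |P.eval (x : ℝ)| :=
    (P.continuous.comp continuous_subtype_val).abs
  exact isCompact_range h |>.bddAbove

theorem le_supNorm (P : ℝ[X]) {x : ℝ} (hx : x ∈ Icc (-1 : ℝ) 1) : |P.eval x| ≤ supNorm P :=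
  le_ciSup (supNorm_bdd P) ⟨x, hx⟩

theorem supNorm_le (P : ℝ[X]) {M : ℝ} (h : ∀ x ∈ Icc (-1 : ℝ) 1, |P.eval x| ≤ M) :
    supNorm P ≤ M := by
  have : Nonempty (Icc (-1 : ℝ) 1) := ⟨⟨0, by norm_num⟩⟩
  exact ciSup_le fun x => h x x.2

/-- The snake polynomial of the example. -/
noncomputable def w : ℝ[X] := C 210 * X ^ 5 - C 348 * X ^ 3 + C 141 * X

/-- The competitor of the example. -/
noncomputable def p : ℝ[X] := C 200 * X ^ 4 - C 330 * X ^ 2 + C 133

theorem w_eval (x : ℝ) : w.eval x = 210 * x ^ 5 - 348 * x ^ 3 + 141 * x := by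
  simp [w]

theorem p_eval (x : ℝ) : p.eval x = 200 * x ^ 4 - 330 * x ^ 2 + 133 := by
  simp [p]

theorem w_deriv (x : ℝ) : (derivative w).eval x = 1050 * x ^ 4 - 1044 * x ^ 2 + 141 := by
  simp [w]; ring

theorem p_deriv (x : ℝ) : (derivative p).eval x = 800 * x ^ 3 - 660 * x := by
  simp [p]; ring

theorem w_deg : w.natDegree ≤ 5 := by
  unfold w; compute_degree

theorem p_deg : p.natDegree ≤ 5 := by
  have : p.natDegree ≤ 4 := by unfold p; compute_degree
  omega

/-- The alternation points. -/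
noncomputable def τ : Fin 6 → ℝ := ![1, 39 / 40, 5 / 6, -5 / 6, -39 / 40, -1]

/-- There are `n = 5`, `k = 1`, a strictly positive continuous majorant `μ`, its snake polynomial
`ω` and a polynomial `q` of degree at most `n` with `|q| ≤ μ` on `[-1,1]` whose `k`-th derivative
has a larger uniform norm than the `k`-th derivative of `ω`. -/
theorem result :
    ∃ (n k : ℕ) (μ : ℝ → ℝ) (ω q : ℝ[X]), 1 ≤ k ∧ k ≤ n ∧ IsMajorant μ ∧
      (∀ x ∈ Icc (-1 : ℝ) 1, 0 < μ x) ∧ IsSnake n μ ω ∧ Admissible n μ q ∧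
      supNorm (derivative^[k] ω) < supNorm (derivative^[k] q) := by
  refine ⟨5, 1, fun x => max |w.eval x| |p.eval x|, w, p, le_refl _, by norm_num,
    ⟨?_, ?_⟩, ?_, ⟨⟨w_deg, ?_⟩, τ, ?_, ?_, ?_⟩, ⟨p_deg, ?_⟩, ?_⟩
  · exact ((w.continuous.abs).max (p.continuous.abs)).continuousOn
  · intro x _
    exact le_max_of_le_left (abs_nonneg _)
  · intro x _
    by_contra hcon
    have h0 : max |w.eval x| |p.eval x| ≤ 0 := not_lt.mp hcon
    have hw : w.eval x = 0 := by
      have := le_trans (le_max_left _ _) h0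
      exact abs_nonpos_iff.mp this
    have hp : p.eval x = 0 := by
      have := le_trans (le_max_right _ _) h0
      exact abs_nonpos_iff.mp this
    rw [w_eval] at hw
    rw [p_eval] at hp
    have hx0 : x ≠ 0 := by
      rintro rfl
      norm_num at hp
    have hr : 210 * x ^ 4 - 348 * x ^ 2 + 141 = 0 := by
      have : x * (210 * x ^ 4 - 348 * x ^ 2 + 141) = 0 := by linarith [hw]
      rcases mul_eq_zero.mp this with h | h
      · exact absurd h hx0
      · exact h
    nlinarith [hr, hp, sq_nonneg (x ^ 2)]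
  · intro x _
    exact le_max_left _ _
  · intro i j hij
    fin_cases i <;> fin_cases j <;> simp [τ] at hij ⊢ <;> norm_num at hij ⊢
  · intro i
    fin_cases i <;> simp [τ] <;> norm_num
  · intro i
    fin_cases i
    · simp [τ, w_eval, p_eval]; norm_num
    · simp [τ, w_eval, p_eval]; norm_num [abs_of_neg, abs_of_pos]
    · simp [τ, w_eval, p_eval]; norm_num
    · simp [τ, w_eval, p_eval]; norm_num
    · simp [τ, w_eval, p_eval]; norm_num
    · simp [τ, w_eval, p_eval]; norm_num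
  · intro x _
    exact le_max_right _ _
  · have h1 : supNorm (derivative w) ≤ 147 := by
      apply supNorm_le
      intro x hx
      rw [w_deriv, abs_le]
      have hx2 : x ^ 2 ≤ 1 := by nlinarith [hx.1, hx.2]
      constructor
      · nlinarith [sq_nonneg (x ^ 2 - 348 / 700), sq_nonneg x]
      · nlinarith [mul_nonneg (sq_nonneg x) (sub_nonneg.mpr hx2)]
    have h2 : (230 : ℝ) ≤ supNorm (derivative p) := by
      have := le_supNorm (derivative p) (x := 1 / 2) (by norm_num)
      rw [p_deriv] at this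
      norm_num at this
      exact this
    simp only [Function.iterate_one]
    linarith

end Pool.Agent.Results.MP_01622d_an.SnakeNotExtremal
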